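import Pool.Agent.Q35.ZC.Stm

/-!
# Project ZC, job IND: the classes of the points of the sequence
-/

set_option autoImplicit false

open Polynomial Pool.Agent.Q35.ZC

namespace Pool.Agent.Q131.ZC

theorem ind : S_IND := by
  intro F _ _ θ hw x Q hS A _ δ hodd hrel
  have h2 : (2 : F) ≠ 0 := two_ne_zero
  have g0 : ∀ y, (gp θ y).eval 0 = -θ.1 := by intro y; simp [gp]
  have q0 : (qp θ).eval 0 = θ.1 ^ 2 := by simp [qp]
  have hδ : ∀ a : F × F, δ (a.1, -a.2) = -δ a := fun a => hodd a.1 a.2
  intro m
  induction m using Nat.strong_induction_on with
  | _ m ih =>
    rcases m with _ | m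
    · intro a ha
      rw [hS.zero] at ha
      rw [← Option.some.inj ha]
      simp
    · intro b hb
      rcases hQ : Q m with _ | a
      · -- the point at infinity
        rcases m with _ | k
        · rw [hS.zero] at hQ
          exact absurd hQ (by simp)
        obtain ⟨h1, -, h3, h4⟩ := hS.two k hQ
        obtain ⟨a, ha⟩ := Option.ne_none_iff_exists'.1 h1
        obtain ⟨κ, hκ, e1⟩ := hS.norm k
        obtain ⟨κ', hκ', e2⟩ := hS.norm (k + 1)
        rw [ha, hQ] at e1
        rw [hQ, hb] at e2
        simp only [lq, mul_one] at e1 e2
        have la := hS.left k a ha
        have rb' := hS.right (k + 1) b hb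
        have oa := hS.on k a ha
        have ob := hS.on (k + 1 + 1) b hb
        set g1 := gp θ (x k) with hg1
        set g2 := gp θ (x (k + 1)) with hg2
        have hv0 : (-(g1 + g2)).eval 0 ≠ 0 := by
          rw [eval_neg, eval_add, hg1, hg2, g0, g0]
          intro h
          apply hw
          have : 2 * θ.1 = 0 := by linear_combination h
          exact (mul_eq_zero.1 this).resolve_left h2
        have hne : a ≠ b := by
          intro hab
          exact hS.ne k a ha (by rw [hab]; exact hb)
        have hnorm : (g1 * g2 + qp θ) ^ 2 - (-(g1 + g2)) ^ 2 * qp θ =
            (C κ * X ^ 2 * (X - C a.1)) * (C κ' * X ^ 2 * (X - C b.1)) := by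
          rw [← e1, ← e2]
          ring
        have hcop : IsCoprime (g1 * g2 + qp θ) (-(g1 + g2)) := by
          refine isCoprime_of_irreducible_dvd ?_ ?_
          · rintro ⟨-, h⟩
            apply hv0
            rw [h, eval_zero]
          · intro p hp hpu hpv
            have hpp : Prime p := hp.prime
            have hroot : ∀ r : F, p ∣ X - C r → (-(g1 + g2)).eval r = 0 := by
              intro r hr
              have : X - C r ∣ p := by
                have hirr := irreducible_X_sub_C r
                exact (hp.associated_of_dvd hirr hr).symm.dvd
              have h5 : X - C r ∣ -(g1 + g2) := this.trans hpv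
              exact dvd_iff_isRoot.1 h5
            have hX : ¬ p ∣ X := by
              intro h
              apply hv0
              apply hroot 0
              simpa using h
            have hC : ∀ c : F, c ≠ 0 → ¬ p ∣ C c := by
              intro c hc h
              exact hp.not_isUnit (isUnit_of_dvd_unit h (isUnit_C.2 hc.isUnit))
            have hX2 : ¬ p ∣ X ^ 2 := fun h => hX (hpp.dvd_of_dvd_pow h)
            have hdiv : p ∣ (C κ * X ^ 2 * (X - C a.1)) * (C κ' * X ^ 2 * (X - C b.1)) := by
              rw [← hnorm]
              exact dvd_sub (dvd_pow hpu two_ne_zero)
                (Dvd.dvd.mul_right (dvd_pow hpv two_ne_zero) _)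
            have hab : p ∣ X - C a.1 ∨ p ∣ X - C b.1 := by
              rcases hpp.dvd_or_dvd hdiv with h | h
              · rcases hpp.dvd_or_dvd h with h | h
                · rcases hpp.dvd_or_dvd h with h | h
                  · exact absurd h (hC κ hκ)
                  · exact absurd h hX2
                · exact Or.inl h
              · rcases hpp.dvd_or_dvd h with h | h
                · rcases hpp.dvd_or_dvd h with h | h
                  · exact absurd h (hC κ' hκ')
                  · exact absurd h hX2
                · exact Or.inr h
            rcases hab with h | h
            · have h5 := hroot _ h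
              have h6 : g2.eval a.1 = a.2 := by
                rw [eval_neg, eval_add, la] at h5
                linear_combination -h5
              have h7 := congrArg (Polynomial.eval a.1) e2
              rw [eval_sub, eval_pow, h6, ← oa, sub_self] at h7
              simp only [eval_mul, eval_C, eval_pow, eval_X, eval_sub] at h7
              have h8 : a.1 ≠ 0 := by
                intro h9
                apply hv0
                rw [h9] at h5
                exact h5
              have h9 : a.1 - b.1 = 0 := by
                rcases mul_eq_zero.1 h7.symm with h10 | h10
                · exact absurd h10 (mul_ne_zero hκ' (pow_ne_zero 2 h8))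
                · exact h10
              have h10 : a.1 = b.1 := sub_eq_zero.1 h9
              apply hne
              refine Prod.ext h10 ?_
              rw [← h6, h10, rb']
            · have h5 := hroot _ h
              have h6 : g1.eval b.1 = -b.2 := by
                rw [eval_neg, eval_add, rb'] at h5
                linear_combination -h5
              have h7 := congrArg (Polynomial.eval b.1) e1
              rw [eval_sub, eval_pow, h6, neg_sq, ← ob, sub_self] at h7
              simp only [eval_mul, eval_C, eval_pow, eval_X, eval_sub] at h7
              have h8 : b.1 ≠ 0 := by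
                intro h9
                apply hv0
                rw [h9] at h5
                exact h5
              have h9 : b.1 - a.1 = 0 := by
                rcases mul_eq_zero.1 h7.symm with h10 | h10
                · exact absurd h10 (mul_ne_zero hκ (pow_ne_zero 2 h8))
                · exact h10
              have h10 : a.1 = b.1 := (sub_eq_zero.1 h9).symm
              apply hne
              refine Prod.ext h10 ?_
              rw [← h10, la] at h6
              exact neg_injective h6
        have hrel1 := hrel (g1 * g2 + qp θ) (-(g1 + g2))
          ({(0, -θ.1), (0, -θ.1), (0, -θ.1), (0, -θ.1), (a.1, -a.2), b} : Multiset (F × F)) (by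
            refine ⟨hcop, ?_, ⟨κ * κ', mul_ne_zero hκ hκ', ?_⟩, 3, by simp, ?_, ?_⟩
            · have hz : ((0 : F), -θ.1).2 ^ 2 = (qp θ).eval ((0 : F), -θ.1).1 ∧
                  (g1 * g2 + qp θ).eval ((0 : F), -θ.1).1 +
                    (-(g1 + g2)).eval ((0 : F), -θ.1).1 * ((0 : F), -θ.1).2 = 0 := by
                constructor
                · simp only [q0]; ring
                · simp only [eval_add, eval_mul, eval_neg, hg1, hg2, g0, q0]; ring
              have hzb : b.2 ^ 2 = (qp θ).eval b.1 ∧
                  (g1 * g2 + qp θ).eval b.1 + (-(g1 + g2)).eval b.1 * b.2 = 0 := by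
                refine ⟨ob, ?_⟩
                simp only [eval_add, eval_mul, eval_neg, rb', ← ob]; ring
              have hza : (a.1, -a.2).2 ^ 2 = (qp θ).eval (a.1, -a.2).1 ∧
                  (g1 * g2 + qp θ).eval (a.1, -a.2).1 +
                    (-(g1 + g2)).eval (a.1, -a.2).1 * (a.1, -a.2).2 = 0 := by
                refine ⟨by rw [neg_sq]; exact oa, ?_⟩
                simp only [eval_add, eval_mul, eval_neg, la, ← oa]; ring
              intro s hs
              simp only [Multiset.insert_eq_cons, Multiset.mem_cons,
                Multiset.mem_singleton] at hs
              rcases hs with rfl | rfl | rfl | rfl | rfl | rfl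
              · exact hz
              · exact hz
              · exact hz
              · exact hz
              · exact hza
              · exact hzb
            · rw [hnorm]
              simp only [Multiset.insert_eq_cons, Multiset.map_cons, Multiset.map_singleton,
                Multiset.prod_cons, Multiset.prod_singleton, C_mul, C_0, sub_zero]
              ring
            · have : g1 * g2 + qp θ = C (2 * θ.1 ^ 2) + C (2 * θ.2 0) * X +
                  C ((θ.2 0) ^ 2 / (4 * θ.1 ^ 2) + θ.2 1) * X ^ 2 + C (θ.2 2) * X ^ 3 := by
                have c1 : -(θ.2 0) / (2 * θ.1) * (-(θ.2 0) / (2 * θ.1)) =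
                    (θ.2 0) ^ 2 / (4 * θ.1 ^ 2) := by field_simp; ring
                have c2 : x k / (2 * θ.1) * (x k / (2 * θ.1)) = θ.2 3 := by
                  rw [div_mul_div_comm, ← sq (x k), h4]; field_simp; ring
                have c3 : θ.1 * (-(θ.2 0) / (2 * θ.1)) * 2 = - θ.2 0 := by field_simp
                rw [hg1, hg2, h3, gp, gp, qp]
                have e3 : (C (-x k / (2 * θ.1)) : F[X]) = - C (x k / (2 * θ.1)) := by
                  rw [← C_neg, neg_div]
                have e4 : (C (-θ.1) : F[X]) = - C θ.1 := by rw [C_neg]
                have c1' := congrArg (C : F → F[X]) c1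
                have c2' := congrArg (C : F → F[X]) c2
                have c3' := congrArg (C : F → F[X]) c3
                simp only [C_mul] at c1' c2' c3'
                have e5 : (C ((θ.2 0) ^ 2 / (4 * θ.1 ^ 2) + θ.2 1) : F[X]) =
                    C ((θ.2 0) ^ 2 / (4 * θ.1 ^ 2)) + C (θ.2 1) := C_add
                have e8 : (C (2 : F) : F[X]) = 2 := map_ofNat C 2
                have e6 : (C (2 * θ.1 ^ 2) : F[X]) = 2 * (C θ.1) ^ 2 := by
                  rw [C_mul, C_pow, e8]
                have e7 : (C (2 * θ.2 0) : F[X]) = 2 * C (θ.2 0) := by
                  rw [C_mul, e8]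
                have e9 : (C (- θ.2 0) : F[X]) = - C (θ.2 0) := by rw [C_neg]
                have e10 : (C (θ.1 ^ 2) : F[X]) = (C θ.1) ^ 2 := by rw [C_pow]
                rw [e8] at c3'
                rw [e9] at c3'
                rw [e3, e4, e5, e6, e7, ← c1', e10]
                linear_combination (-X ^ 4) * c2' + (-X) * c3'
              rw [this]
              compute_degree
            · have : -(g1 + g2) = C (2 * θ.1) + C (θ.2 0 / θ.1) * X := by
                have c3 : -(θ.2 0) / (2 * θ.1) * 2 = -(θ.2 0 / θ.1) := by field_simp
                have c3' := congrArg (C : F → F[X]) c3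
                simp only [C_mul] at c3'
                have e8 : (C (2 : F) : F[X]) = 2 := map_ofNat C 2
                have e9 : (C (-(θ.2 0 / θ.1)) : F[X]) = - C (θ.2 0 / θ.1) := by rw [C_neg]
                have e3 : (C (-x k / (2 * θ.1)) : F[X]) = - C (x k / (2 * θ.1)) := by
                  rw [← C_neg, neg_div]
                have e4 : (C (-θ.1) : F[X]) = - C θ.1 := by rw [C_neg]
                have e7 : (C (2 * θ.1) : F[X]) = 2 * C (θ.1) := by
                  rw [C_mul, e8]
                rw [e8, e9] at c3'
                rw [hg1, hg2, h3, gp, gp, e3, e4, e7]
                linear_combination (-X) * c3'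
              rw [this]
              have hdeg : (C (2 * θ.1) + C (θ.2 0 / θ.1) * X : F[X]).natDegree ≤ 1 := by
                compute_degree
              omega)
        simp only [Multiset.insert_eq_cons, Multiset.map_cons, Multiset.map_singleton,
          Multiset.sum_cons, Multiset.sum_singleton, hodd, hδ] at hrel1
        have hk := ih k (by omega) a ha
        have h5 : δ b = 4 • δ (0, θ.1) + δ a := by
          have h6 : δ b = δ (0, θ.1) + (δ (0, θ.1) + (δ (0, θ.1) + (δ (0, θ.1) + δ a))) := by
            have := hrel1
            have h7 : δ (a.1, a.2) = δ a := rfl
            rw [← sub_eq_zero, ← this]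
            abel
          rw [h6]
          abel
        rw [h5, hk, ← add_nsmul]
        congr 1
        omega
      · obtain ⟨κ, hκ, e1⟩ := hS.norm m
        rw [hQ, hb] at e1
        simp only [lq] at e1
        have la := hS.left m a hQ
        have rb' := hS.right m b hb
        have oa := hS.on m a hQ
        have ob := hS.on (m + 1) b hb
        have hrel1 := hrel (gp θ (x m)) (-1)
          ({(0, -θ.1), (0, -θ.1), (a.1, -a.2), b} : Multiset (F × F)) (by
            refine ⟨isCoprime_one_right.neg_right, ?_, ⟨κ, hκ, ?_⟩, 2, by simp, ?_, by simp⟩
            · have hz : ((0 : F), -θ.1).2 ^ 2 = (qp θ).eval ((0 : F), -θ.1).1 ∧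
                  (gp θ (x m)).eval ((0 : F), -θ.1).1 +
                    (-1 : F[X]).eval ((0 : F), -θ.1).1 * ((0 : F), -θ.1).2 = 0 := by
                constructor
                · simp only [q0]; ring
                · simp only [g0, eval_neg, eval_one]; ring
              have hzb : b.2 ^ 2 = (qp θ).eval b.1 ∧
                  (gp θ (x m)).eval b.1 + (-1 : F[X]).eval b.1 * b.2 = 0 := by
                refine ⟨ob, ?_⟩
                simp only [eval_neg, eval_one, rb']; ring
              have hza : (a.1, -a.2).2 ^ 2 = (qp θ).eval (a.1, -a.2).1 ∧
                  (gp θ (x m)).eval (a.1, -a.2).1 +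
                    (-1 : F[X]).eval (a.1, -a.2).1 * (a.1, -a.2).2 = 0 := by
                refine ⟨by rw [neg_sq]; exact oa, ?_⟩
                simp only [eval_neg, eval_one, la]; ring
              intro s hs
              simp only [Multiset.insert_eq_cons, Multiset.mem_cons,
                Multiset.mem_singleton] at hs
              rcases hs with rfl | rfl | rfl | rfl
              · exact hz
              · exact hz
              · exact hza
              · exact hzb
            · rw [neg_one_sq, one_mul, e1]
              simp only [Multiset.insert_eq_cons, Multiset.map_cons, Multiset.map_singleton,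
                Multiset.prod_cons, Multiset.prod_singleton, C_0, sub_zero]
              ring
            · rw [gp]
              compute_degree)
        simp only [Multiset.insert_eq_cons, Multiset.map_cons, Multiset.map_singleton,
          Multiset.sum_cons, Multiset.sum_singleton, hodd, hδ] at hrel1
        have hk := ih m (by omega) a hQ
        have h5 : δ b = 2 • δ (0, θ.1) + δ a := by
          have h6 : δ b = δ (0, θ.1) + (δ (0, θ.1) + δ a) := by
            have := hrel1
            have h7 : δ (a.1, a.2) = δ a := rfl
            rw [← sub_eq_zero, ← this]
            abel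
          rw [h6]
          abel
        rw [h5, hk, ← add_nsmul]
        congr 1
        omega

end Pool.Agent.Q131.ZC
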